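import Pool.Agent.Q33.Fam.Final
import Pool.Agent.Q33.Fam.X35a
import Pool.Agent.Q33.Fam.X35b
import Pool.Agent.Q33.Fam.X35c
import Pool.Agent.Q33.Fam.X35d
import Pool.Agent.Q33.Fam.X35e
import Pool.Agent.Q33.Fam.W35

set_option autoImplicit false

namespace Pool.Agent.Results.MP_1a5975_nt.ThirtyFive

open Finset Pool.Agent.Q33.Fam

lemma ft0 (N : ℕ) : W35.ft 0 N = (((35 : ℤ) * N + 8) * w4 N : ℤ) := by
  cases N with
  | zero =>
    have h : W35.ft 0 0 = 8 := rfl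
    rw [h, w4_zero]
    norm_num
  | succ M =>
    rw [W35.ft_s]
    unfold W35.Lf
    push_cast
    rw [w4_fact]
    have e1 : 4 * (M + 1) = 4 * M + 3 + 1 := by ring
    have e2 : 6 * 0 + 4 * M + 3 = 4 * M + 3 := by ring
    have e3 : 0 + M + 1 = M + 1 := by ring
    have e4 : 2 * 0 + M + 1 = M + 1 := by ring
    have e5 : 3 * 0 + M + 1 = M + 1 := by ring
    try rw [e2]
    try rw [e3]
    try rw [e4]
    try rw [e5]
    rw [e1, Nat.factorial_succ (4 * M + 3)]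
    have h1 : ((M + 1).factorial : ℚ) ≠ 0 := by exact_mod_cast Nat.factorial_ne_zero _
    push_cast
    field_simp
    ring

/-- telescoping, `N = 3 k + M` -/
lemma tele3 (N : ℕ) :
    ∑ k ∈ range N, (if 3 * k + 1 ≤ N then W35.gt k (N - 3 * k - 1) else 0) = 81 * (S 35 8 81 w4 N : ℤ) := by
  have h := tele 81 35 8 w4 (fun N k => if 3 * k ≤ N then W35.ft k (N - 3 * k) else 0)
    (fun N k => if 3 * k + 1 ≤ N then W35.gt k (N - 3 * k - 1) else 0) ?_ ?_ ?_ ?_ N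
  · rw [h]; push_cast; ring
  · intro N k hk
    rcases Nat.lt_or_ge N (3 * k) with h | h
    · rw [if_neg (by omega), if_neg (by omega), if_neg (by omega), if_neg (by omega)]
      ring
    · obtain ⟨M, rfl⟩ : ∃ M, N = 3 * k + M := ⟨N - 3 * k, by omega⟩
      rcases Nat.lt_or_ge M 4 with h4 | h4
      · interval_cases M
        · have e1 : 3 * k + 0 + 1 - 3 * k - 1 = 0 := by omega
          have e3 : 3 * k + 0 - 3 * k = 0 := by omega
          simp only [e1, e3]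
          rw [if_pos (by omega), if_neg (by omega), if_pos (by omega), if_neg (by omega)]
          cases k with
          | zero => rw [W35.WC0]; push_cast; ring
          | succ k => rw [W35.WB0]; push_cast; ring
        · have e1 : 3 * k + 1 + 1 - 3 * k - 1 = 1 := by omega
          have e2 : 3 * k + 1 - 3 * k - 1 = 0 := by omega
          have e3 : 3 * k + 1 - 3 * k = 1 := by omega
          simp only [e1, e2, e3]
          rw [if_pos (by omega), if_pos (by omega), if_pos (by omega), if_neg (by omega)]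
          cases k with
          | zero => have := W35.WC1; push_cast; linarith
          | succ k => have := W35.WB1 k; push_cast; linarith
        · have e1 : 3 * k + 2 + 1 - 3 * k - 1 = 2 := by omega
          have e2 : 3 * k + 2 - 3 * k - 1 = 1 := by omega
          have e3 : 3 * k + 2 - 3 * k = 2 := by omega
          simp only [e1, e2, e3]
          rw [if_pos (by omega), if_pos (by omega), if_pos (by omega), if_neg (by omega)]
          have := W35.WB2 k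
          push_cast
          linarith
        · have e1 : 3 * k + 3 + 1 - 3 * k - 1 = 3 := by omega
          have e2 : 3 * k + 3 - 3 * k - 1 = 2 := by omega
          have e3 : 3 * k + 3 - 3 * k = 3 := by omega
          have e4 : 3 * k + 3 - 3 * (k + 1) = 0 := by omega
          simp only [e1, e2, e3, e4]
          rw [if_pos (by omega), if_pos (by omega), if_pos (by omega), if_pos (by omega)]
          have := W35.WA0 k
          push_cast
          linarith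
      · obtain ⟨L, rfl⟩ : ∃ L, M = L + 4 := ⟨M - 4, by omega⟩
        have e1 : 3 * k + (L + 4) + 1 - 3 * k - 1 = L + 4 := by omega
        have e2 : 3 * k + (L + 4) - 3 * k - 1 = L + 3 := by omega
        have e3 : 3 * k + (L + 4) - 3 * k = L + 4 := by omega
        have e4 : 3 * k + (L + 4) - 3 * (k + 1) = L + 1 := by omega
        simp only [e1, e2, e3, e4]
        rw [if_pos (by omega), if_pos (by omega), if_pos (by omega), if_pos (by omega)]
        have := W35.WA k L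
        push_cast
        linarith
  · intro N
    rw [if_neg (by omega)]
  · intro N
    rw [if_neg (by omega)]
  · intro N
    simp only [Nat.zero_le, mul_zero, if_true, Nat.sub_zero]
    exact ft0 N

/-- the modulus -/
def dd (n : ℕ) : ℤ := 4 * ((n : ℤ) * cb n)

lemma dd_cast (n : ℕ) : ((dd n : ℤ) : ℚ) = 4 * (n * (((2 * n).factorial : ℚ) / (n.factorial : ℚ) ^ 2)) := by
  unfold dd
  push_cast
  rw [cb_fact]

lemma gt_zz (k : ℕ) : W35.gt (k + 1) 0 = (((-729) ^ (k + 1) * 81 : ℤ) : ℚ) * ((dd (3 * (k + 1) + 0 + 1) : ℤ) : ℚ) *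
      (((fp [6 * (k + 1) + 4 * 0, 3 * (k + 1) + 0] : ℕ) : ℚ) /
        ((fp [6 * (k + 1) + 2 * 0, 0, (k + 1) + 0, 2 * (k + 1) + 0] : ℕ) : ℚ)) := by
  rw [W35.gt_z]
  unfold W35.Pf
  rw [dd_cast]
  simp only [fp_cons, fp_nil]
  have e1 : 2 * (3 * (k + 1) + 0 + 1) = 6 * k + 3 + 1 + 1 + 1 + 1 + 1 := by ring
  have e2 : 3 * (k + 1) + 0 + 1 = 3 * k + 3 + 1 := by ring
  have e3 : 6 * (k + 1) + 4 * 0 = 6 * (k + 1) := by ring
  have e4 : 6 * (k + 1) + 2 * 0 = 6 * (k + 1) := by ring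
  have e5 : 3 * (k + 1) + 0 = 3 * k + 3 := by ring
  have e6 : k + 1 + 0 = k + 1 := by ring
  have e7 : 2 * (k + 1) + 0 = 2 * k + 2 := by ring
  rw [e1, e2]
  try rw [e3]
  try rw [e4]
  try rw [e5]
  try rw [e6]
  try rw [e7]
  rw [Nat.factorial_succ (6 * k + 3 + 1 + 1 + 1 + 1), Nat.factorial_succ (6 * k + 3 + 1 + 1 + 1),
    Nat.factorial_succ (6 * k + 3 + 1 + 1), Nat.factorial_succ (6 * k + 3 + 1), Nat.factorial_succ (6 * k + 3),
    Nat.factorial_succ (3 * k + 3)]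
  have h1 : ((6 * k + 3).factorial : ℚ) ≠ 0 := by exact_mod_cast Nat.factorial_ne_zero _
  have h2 : ((3 * k + 3).factorial : ℚ) ≠ 0 := by exact_mod_cast Nat.factorial_ne_zero _
  have h3 : ((k + 1).factorial : ℚ) ≠ 0 := by exact_mod_cast Nat.factorial_ne_zero _
  have h4 : ((2 * k + 2).factorial : ℚ) ≠ 0 := by exact_mod_cast Nat.factorial_ne_zero _
  have h5 : ((6 * (k + 1)).factorial : ℚ) ≠ 0 := by exact_mod_cast Nat.factorial_ne_zero _
  simp only [Nat.factorial_zero]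
  push_cast
  generalize ((-729) : ℚ) ^ (k + 1) = z
  field_simp
  ring

lemma gt_one (k : ℕ) : W35.gt k 1 = (((-729) ^ k * 81 : ℤ) : ℚ) * ((dd (3 * k + 1 + 1) : ℤ) : ℚ) *
      (((fp [6 * k + 4 * 1, 3 * k + 1] : ℕ) : ℚ) / ((fp [6 * k + 2 * 1, 1, k + 1, 2 * k + 1] : ℕ) : ℚ)) +
      (((-729) ^ k * 81 * (90 * k + 69) : ℤ) : ℚ) * ((dd (3 * k + 1 + 1) : ℤ) : ℚ) *
      (((fp [6 * k + 4 * 0 + 2, 3 * k + 0 + 1] : ℕ) : ℚ) / ((fp [6 * k + 2 * 0 + 3, 0, k + 0 + 1, 2 * k + 0] : ℕ) : ℚ)) := by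
  rw [W35.gt_s k 0]
  unfold W35.Pf
  rw [dd_cast]
  simp only [fp_cons, fp_nil]
  have e1 : 2 * (3 * k + 1 + 1) = 6 * k + 1 + 1 + 1 + 1 := by ring
  have e2 : 6 * k + 4 * 1 = 6 * k + 1 + 1 + 1 + 1 := by ring
  have e3 : 6 * k + 2 * 1 = 6 * k + 1 + 1 := by ring
  have e4 : 6 * k + 4 * 0 + 2 = 6 * k + 1 + 1 := by ring
  have e5 : 6 * k + 2 * 0 + 3 = 6 * k + 1 + 1 + 1 := by ring
  have e6 : 6 * k + 4 * 0 + 1 = 6 * k + 1 := by ring
  have e7 : 3 * k + 0 + 1 = 3 * k + 1 := by ring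
  have e8 : k + 0 + 1 = k + 1 := by ring
  have e9 : 2 * k + 0 = 2 * k := by ring
  have e10 : 2 * k + 0 + 1 = 2 * k + 1 := by ring
  rw [e10, e1, e2, e3, e4, e5, e6, e7, e8, e9, Nat.factorial_succ (6 * k + 1 + 1 + 1), Nat.factorial_succ (6 * k + 1 + 1),
    Nat.factorial_succ (6 * k + 1), Nat.factorial_succ (3 * k + 1), Nat.factorial_succ (2 * k)]
  have h1 : ((6 * k + 1).factorial : ℚ) ≠ 0 := by exact_mod_cast Nat.factorial_ne_zero _
  have h2 : ((3 * k + 1).factorial : ℚ) ≠ 0 := by exact_mod_cast Nat.factorial_ne_zero _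
  have h3 : ((k + 1).factorial : ℚ) ≠ 0 := by exact_mod_cast Nat.factorial_ne_zero _
  have h4 : ((2 * k).factorial : ℚ) ≠ 0 := by exact_mod_cast Nat.factorial_ne_zero _
  simp only [Nat.factorial_zero, Nat.factorial_one]
  push_cast
  generalize ((-729) : ℚ) ^ k = z
  field_simp
  ring

lemma gt_two (k M : ℕ) : W35.gt k (M + 2) =
    (((-729) ^ k * 81 : ℤ) : ℚ) * ((dd (3 * k + (M + 2) + 1) : ℤ) : ℚ) *
      (((fp [6 * k + 4 * (M + 2), 3 * k + (M + 2)] : ℕ) : ℚ) /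
        ((fp [6 * k + 2 * (M + 2), M + 2, k + (M + 2), 2 * k + (M + 2)] : ℕ) : ℚ)) +
    ((((-729) ^ k * 6561 : ℤ) : ℚ) * ((dd (3 * k + (M + 2) + 1) : ℤ) : ℚ) *
      (((fp [6 * k + 4 * M + 5, 3 * k + M + 3] : ℕ) : ℚ) /
        ((fp [6 * k + 2 * M + 6, M, k + M + 1, 2 * k + M + 1] : ℕ) : ℚ)) +
    ((((-729) ^ k * 81 : ℤ) : ℚ) * ((dd (3 * k + (M + 2) + 1) : ℤ) : ℚ) *
      (((fp [6 * k + 4 * M + 6, 3 * k + M + 3] : ℕ) : ℚ) /
        ((fp [6 * k + 2 * M + 6, M, k + M + 1, 2 * k + M + 2] : ℕ) : ℚ)) +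
    ((((-729) ^ k * 81 * (16 * k + 9 * (M + 2)) : ℤ) : ℚ) * ((dd (3 * k + (M + 2) + 1) : ℤ) : ℚ) *
      (((fp [6 * k + 4 * M + 6, 3 * k + M + 2] : ℕ) : ℚ) /
        ((fp [6 * k + 2 * M + 5, M, k + M + 2, 2 * k + M + 2] : ℕ) : ℚ)) +
    (((-729) ^ k * 81 * (90 * k + 69 * (M + 2)) : ℤ) : ℚ) * ((dd (3 * k + (M + 2) + 1) : ℤ) : ℚ) *
      (((fp [6 * k + 4 * (M + 1) + 2, 3 * k + (M + 1) + 1] : ℕ) : ℚ) /
        ((fp [6 * k + 2 * (M + 1) + 3, M + 1, k + (M + 1) + 1, 2 * k + (M + 1)] : ℕ) : ℚ))))) := by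
  rw [W35.gt_s k (M + 1)]
  unfold W35.Pf
  rw [dd_cast]
  simp only [fp_cons, fp_nil]
  have q1 : 2 * (3 * k + (M + 2) + 1) = 6 * k + 2 * M + 4 + 1 + 1 := by ring
  have q2 : 3 * k + (M + 2) + 1 = 3 * k + M + 2 + 1 := by ring
  have q3 : 3 * k + (M + 2) = 3 * k + M + 2 := by ring
  have q4 : 6 * k + 4 * (M + 2) = 6 * k + 4 * M + 5 + 1 + 1 + 1 := by ring
  have q5 : 6 * k + 2 * (M + 2) = 6 * k + 2 * M + 4 := by ring
  have q6 : M + 2 = M + 1 + 1 := by ring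
  have q7 : k + (M + 1 + 1) = k + M + 1 + 1 := by ring
  have q8 : 2 * k + (M + 1 + 1) = 2 * k + M + 1 + 1 := by ring
  have q9 : 3 * k + M + 3 = 3 * k + M + 2 + 1 := by ring
  have q10 : 6 * k + 2 * M + 6 = 6 * k + 2 * M + 4 + 1 + 1 := by ring
  have q11 : 6 * k + 4 * M + 6 = 6 * k + 4 * M + 5 + 1 := by ring
  have q12 : 6 * k + 2 * M + 5 = 6 * k + 2 * M + 4 + 1 := by ring
  have q13 : k + M + 2 = k + M + 1 + 1 := by ring
  have q14 : 2 * k + M + 2 = 2 * k + M + 1 + 1 := by ring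
  have q15 : 6 * k + 4 * (M + 1) + 2 = 6 * k + 4 * M + 5 + 1 := by ring
  have q16 : 3 * k + (M + 1) + 1 = 3 * k + M + 2 := by ring
  have q17 : 6 * k + 2 * (M + 1) + 3 = 6 * k + 2 * M + 4 + 1 := by ring
  have q18 : k + (M + 1) + 1 = k + M + 1 + 1 := by ring
  have q19 : 2 * k + (M + 1) = 2 * k + M + 1 := by ring
  have q20 : 6 * k + 4 * (M + 1) + 1 = 6 * k + 4 * M + 5 := by ring
  have q21 : 2 * k + (M + 1) + 1 = 2 * k + M + 1 + 1 := by ring
  have q22 : 3 * k + (M + 1) + 1 = 3 * k + M + 2 := by ring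
  rw [q1, q2, q3, q4, q5, q9, q10, q11, q12, q13, q14, q15, q16, q17, q18, q21, q20, q19]
  rw [q6]
  try rw [q7]
  try rw [q8]
  have p1 : k + (M + 1 + 1) = k + M + 1 + 1 := by ring
  rw [Nat.factorial_succ (6 * k + 2 * M + 4 + 1), Nat.factorial_succ (6 * k + 2 * M + 4),
    Nat.factorial_succ (6 * k + 4 * M + 5 + 1 + 1), Nat.factorial_succ (6 * k + 4 * M + 5 + 1),
    Nat.factorial_succ (6 * k + 4 * M + 5), Nat.factorial_succ (M + 1), Nat.factorial_succ M,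
    Nat.factorial_succ (k + M + 1), Nat.factorial_succ (2 * k + M + 1), Nat.factorial_succ (3 * k + M + 2)]
  have h1 : ((6 * k + 2 * M + 4).factorial : ℚ) ≠ 0 := by exact_mod_cast Nat.factorial_ne_zero _
  have h2 : ((6 * k + 4 * M + 5).factorial : ℚ) ≠ 0 := by exact_mod_cast Nat.factorial_ne_zero _
  have h3 : (M.factorial : ℚ) ≠ 0 := by exact_mod_cast Nat.factorial_ne_zero _
  have h4 : ((k + M + 1).factorial : ℚ) ≠ 0 := by exact_mod_cast Nat.factorial_ne_zero _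
  have h5 : ((2 * k + M + 1).factorial : ℚ) ≠ 0 := by exact_mod_cast Nat.factorial_ne_zero _
  have h6 : ((3 * k + M + 2).factorial : ℚ) ≠ 0 := by exact_mod_cast Nat.factorial_ne_zero _
  push_cast
  generalize ((-729) : ℚ) ^ k = z
  generalize ((6 * k + 2 * M + 4).factorial : ℚ) = y1 at *
  generalize ((6 * k + 4 * M + 5).factorial : ℚ) = y2 at *
  generalize (M.factorial : ℚ) = y3 at *
  generalize ((k + M + 1).factorial : ℚ) = y4 at *
  generalize ((2 * k + M + 1).factorial : ℚ) = y5 at *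
  generalize ((3 * k + M + 2).factorial : ℚ) = y6 at *
  field_simp
  ring

lemma Q_of_three {d : ℤ} (c : ℤ) (num den : List ℕ) (h : ∃ e : ℕ, fp den ∣ 3 ^ e * fp num)
    (x : ℚ) (hx : x = c * d * (((fp num : ℕ) : ℚ) / ((fp den : ℕ) : ℚ))) : Q 3 d x := by
  obtain ⟨e, he⟩ := h
  apply Q_ratio c num den e _ x hx
  exact_mod_cast he

lemma gtQ (k M : ℕ) : Q 3 (dd (3 * k + M + 1)) (W35.gt k M) := by
  rcases Nat.lt_or_ge M 2 with h | h
  · interval_cases M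
    · cases k with
      | zero =>
        have h : W35.gt 0 0 = 648 := rfl
        rw [h]
        refine ⟨0, 81, ?_⟩
        unfold dd cb
        norm_num
      | succ k =>
        rw [gt_zz k]
        exact Q_ratio0 ((-729) ^ (k + 1) * 81) _ _ (X35a (k + 1) 0) _ rfl
    · rw [gt_one k]
      apply Q_add
      · exact Q_ratio0 ((-729) ^ k * 81) _ _ (X35a k 1) _ rfl
      · exact Q_of_three ((-729) ^ k * 81 * (90 * k + 69)) _ _ (X35e k 0) _ rfl
  · obtain ⟨L, rfl⟩ : ∃ L, M = L + 2 := ⟨M - 2, by omega⟩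
    rw [gt_two k L]
    apply Q_add
    · exact Q_ratio0 ((-729) ^ k * 81) _ _ (X35a k (L + 2)) _ rfl
    apply Q_add
    · exact Q_of_three ((-729) ^ k * 6561) _ _ (X35b k L) _ rfl
    apply Q_add
    · exact Q_ratio0 ((-729) ^ k * 81) _ _ (X35c k L) _ rfl
    apply Q_add
    · exact Q_ratio0 ((-729) ^ k * 81 * (16 * k + 9 * (L + 2))) _ _ (X35d k L) _ rfl
    · exact Q_of_three ((-729) ^ k * 81 * (90 * k + 69 * (L + 2))) _ _ (X35e k (L + 1)) _ rfl

lemma weak (n : ℕ) : ∃ i : ℕ, dd n ∣ 3 ^ i * S 35 8 81 w4 n := by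
  have h : Q 3 (dd n) (((81 * S 35 8 81 w4 n : ℤ)) : ℚ) := by
    have h2 : (((81 * S 35 8 81 w4 n : ℤ)) : ℚ) = 81 * ((S 35 8 81 w4 n : ℤ) : ℚ) := by push_cast; ring
    rw [h2, ← tele3 n]
    apply Q_sum
    intro k hk
    split_ifs with h
    · have e : 3 * k + (n - 3 * k - 1) + 1 = n := by omega
      have := gtQ k (n - 3 * k - 1)
      rw [e] at this
      exact this
    · exact Q_zero _ _
  obtain ⟨i, hi⟩ := Q_dvd h
  refine ⟨i + 4, ?_⟩
  have e : (3 : ℤ) ^ (i + 4) * S 35 8 81 w4 n = 3 ^ i * (81 * S 35 8 81 w4 n) := by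
    rw [pow_add]; ring
  rw [e]
  exact hi

/-- the part prime to 3 -/
lemma main (n : ℕ) : ∃ i : ℕ, 4 * D n ∣ 3 ^ i * S 35 8 81 w4 n := by
  obtain ⟨i, hi⟩ := weak n
  obtain ⟨j, hj⟩ := weak (n + 1)
  obtain ⟨x, hx⟩ : dd n ∣ 3 ^ (i + j) * S 35 8 81 w4 n := by
    rw [pow_add, mul_comm ((3 : ℤ) ^ i), mul_assoc]
    exact Dvd.dvd.mul_left hi _
  obtain ⟨y, hy⟩ : dd (n + 1) ∣ 3 ^ (i + j) * S 35 8 81 w4 (n + 1) := by
    rw [pow_add, mul_assoc]
    exact Dvd.dvd.mul_left hj _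
  obtain ⟨v, hv⟩ := w4_dvd n
  unfold dd at hx hy
  push_cast at hy
  rw [cb_succ, S_succ, hv] at hy
  have hcb : cb n ≠ 0 := (cb_pos n).ne'
  have h3 : 81 * (4 * (n : ℤ) * x) = (2 * n + 1) * (8 * y - 3 ^ (i + j) * (35 * n + 8) * v) := by
    apply mul_left_cancel₀ hcb
    linear_combination hy - 81 * hx
  have h4 : (2 * (n : ℤ) + 1) ∣ 81 * x := by
    have hcop : IsCoprime (2 * (n : ℤ) + 1) (4 * (n : ℤ)) := ⟨2 * n + 1, -(n + 1), by ring⟩
    apply hcop.dvd_of_dvd_mul_left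
    refine ⟨8 * y - 3 ^ (i + j) * (35 * n + 8) * v, ?_⟩
    linear_combination h3
  obtain ⟨z, hz⟩ := h4
  refine ⟨i + j + 4, z, ?_⟩
  rw [pow_add _ (i + j) 4]
  unfold D
  linear_combination 81 * hx + (4 * n * cb n) * hz

lemma coprime_three_pow (i : ℕ) (r : ℤ) (hr : r % 3 ≠ 0) : IsCoprime ((3 : ℤ) ^ i) r := by
  apply IsCoprime.pow_left
  rw [Int.isCoprime_iff_gcd_eq_one]
  have : ¬ (3 : ℤ) ∣ r := by omega
  exact (Nat.Prime.coprime_iff_not_dvd (Nat.prime_three) (n := r.natAbs)).mpr (by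
    intro h
    apply this
    exact Int.natCast_dvd.mpr h)

/-- the numbers `a_n` of the problem -/
noncomputable def a (n : ℕ) : ℚ :=
  (∑ k ∈ range n, (35 * (k : ℚ) + 8) * (((4 * k).factorial : ℚ) / (k.factorial : ℚ) ^ 4) * 81 ^ (n - 1 - k)) /
    (4 * n * (2 * n + 1) * ((2 * n).choose n : ℚ))

lemma a_eq (n : ℕ) : a n = ((S 35 8 81 w4 n : ℤ) : ℚ) / ((4 * D n : ℤ) : ℚ) := by
  unfold a S D
  push_cast
  congr 1
  · apply sum_congr rfl
    intro k _
    rw [w4_fact]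
  · unfold cb
    push_cast
    ring

/-- For every `n ≥ 1`: `a n` is an integer if `2n+1` is not a power of 3, and `3 a n` is an integer not divisible by 3
if `2n+1` is a power of 3. -/
theorem result : ∀ n : ℕ, 1 ≤ n →
    ((¬ ∃ m : ℕ, 1 ≤ m ∧ 2 * n + 1 = 3 ^ m) → ∃ z : ℤ, a n = z) ∧
    ((∃ m : ℕ, 1 ≤ m ∧ 2 * n + 1 = 3 ^ m) → ∃ z : ℤ, 3 * a n = z ∧ ¬ (3 : ℤ) ∣ z) := by
  intro n hn
  have hD := D_pos n hn
  obtain ⟨i, hp⟩ := main n
  obtain ⟨κ, rfl⟩ : ∃ κ, n = κ + 1 := ⟨n - 1, by omega⟩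
  rw [a_eq]
  have em : (3 : ℤ) * 27 = 81 := by norm_num
  constructor
  · intro h
    have h' : ∀ j : ℕ, 2 * κ + 3 ≠ 3 ^ j := by
      intro j hj
      apply h
      refine ⟨j, ?_, by omega⟩
      rcases Nat.eq_zero_or_pos j with h0 | h0
      · subst h0
        rw [pow_zero] at hj
        omega
      · exact h0
    obtain ⟨r, hr, h3⟩ := three_A 35 8 27 w4 Y4 Y4_ne w4_Y Y4_h1 κ (Or.inl h')
    rw [em] at h3
    have hdvd : 4 * D (κ + 1) ∣ S 35 8 81 w4 (κ + 1) := by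
      apply combine (u := 3 ^ i) (v := 4 * r) (coprime_three_pow i _ (by omega)) hp
      rw [mul_assoc]
      exact mul_dvd_mul_left 4 h3
    obtain ⟨z, hz, _⟩ := rat_int _ _ (by omega) hdvd
    exact ⟨z, hz⟩
  · rintro ⟨j, hj1, hj⟩
    obtain ⟨⟨r, hr, h3⟩, h4⟩ := three_B 35 8 27 w4 Y4 Y4_ne w4_Y Y4_h1 κ j (by omega) (Y4_h2 κ j (by omega))
      (by norm_num)
    rw [em] at h3 h4
    have hdvd : 4 * D (κ + 1) ∣ 3 * S 35 8 81 w4 (κ + 1) := by
      apply combine (u := 3 ^ i) (v := 4 * r) (coprime_three_pow i _ (by omega))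
      · have : (3 : ℤ) ^ i * (3 * S 35 8 81 w4 (κ + 1)) = (3 ^ i * S 35 8 81 w4 (κ + 1)) * 3 := by ring
        rw [this]
        exact Dvd.dvd.mul_right hp 3
      · rw [mul_assoc]
        exact mul_dvd_mul_left 4 h3
    exact rat_three _ _ 4 (by omega) hdvd h4

end Pool.Agent.Results.MP_1a5975_nt.ThirtyFive
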